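import Mathlib

/-!
# Strongly Sidon versus Sidon subsets: two thirds, up to the pairs `u, 2u`
-/

set_option autoImplicit false

namespace Pool.Agent.Results.MP_3cdea4_co.TwoThirds

open Finset Filter

/-- The set of values `n! / (p_1! ... p_t!)`, over all partitions `p_1 + ... + p_t = n`. -/
def multinomialValues (n : ℕ) : Finset ℕ :=
  (Finset.univ : Finset (Nat.Partition n)).image
    fun p => n.factorial / (p.parts.map Nat.factorial).prod

/-- `x + y = u + v` with `x, y, u, v` in `S` forces `{x, y} = {u, v}`. -/
def IsSidon (S : Finset ℕ) : Prop :=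
  ∀ x ∈ S, ∀ y ∈ S, ∀ u ∈ S, ∀ v ∈ S, x + y = u + v → (x = u ∧ y = v) ∨ (x = v ∧ y = u)

/-- The union of `S` and `{0}` is Sidon. -/
def IsStronglySidon (S : Finset ℕ) : Prop := IsSidon (insert 0 S)

open Classical in
/-- The largest size of a Sidon subset of the set of multinomial values. -/
noncomputable def s (n : ℕ) : ℕ :=
  ((multinomialValues n).powerset.filter IsSidon).sup Finset.card

open Classical in
/-- The largest size of a strongly Sidon subset of the set of multinomial values. -/
noncomputable def b (n : ℕ) : ℕ :=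
  ((multinomialValues n).powerset.filter IsStronglySidon).sup Finset.card

open Classical in
/-- The largest number of pairwise disjoint pairs `{u, 2u}` contained in `S` (for positive
integers `u`; `M` is the set of the smaller elements `u` of the pairs). -/
noncomputable def doublings (S : Finset ℕ) : ℕ :=
  (S.powerset.filter fun M => ∀ u ∈ M, 2 * u ∈ S ∧ 2 * u ∉ M).sup Finset.card

theorem IsSidon.mono {S T : Finset ℕ} (hS : IsSidon S) (h : T ⊆ S) : IsSidon T :=
  fun x hx y hy u hu v hv he => hS x (h hx) y (h hy) u (h hu) v (h hv) he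

/-- A Sidon set without solutions of `u + v = x` is strongly Sidon. -/
theorem strong_of_sumfree (T : Finset ℕ) (hT : IsSidon T)
    (h : ∀ u ∈ T, ∀ v ∈ T, u + v ∉ T) : IsStronglySidon T := by
  intro x hx y hy u hu v hv he
  rcases mem_insert.1 hx with hx0 | hxT <;> rcases mem_insert.1 hy with hy0 | hyT <;>
    rcases mem_insert.1 hu with hu0 | huT <;> rcases mem_insert.1 hv with hv0 | hvT
  all_goals
    first
    | omega
    | exact hT x hxT y hyT u huT v hvT he
    | exact absurd (by rw [← (show y = u + v by omega)]; exact hyT) (h u huT v hvT)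
    | exact absurd (by rw [← (show x = u + v by omega)]; exact hxT) (h u huT v hvT)
    | exact absurd (by rw [← (show v = x + y by omega)]; exact hvT) (h x hxT y hyT)
    | exact absurd (by rw [← (show u = x + y by omega)]; exact huT) (h x hxT y hyT)

/-- In a Sidon set of positive integers every element is a summand at most once. -/
theorem summand_unique {S : Finset ℕ} (hS : IsSidon S) (hpos : ∀ x ∈ S, 0 < x) {u v w x y : ℕ}
    (hu : u ∈ S) (hv : v ∈ S) (hw : w ∈ S) (hx : x ∈ S) (hy : y ∈ S) (h1 : u + v = x)
    (h2 : u + w = y) : y = x := by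
  have h0 := hpos u hu
  rcases hS y hy v hv x hx w hw (by omega) with h | h
  · exact h.1
  · omega

/-- The main lemma in the form with sum-free subsets. -/
theorem main_aux (m : ℕ) : ∀ S : Finset ℕ, S.card = m → IsSidon S → (∀ x ∈ S, 0 < x) →
    ∃ T ⊆ S, ∃ M ⊆ S, (∀ u ∈ T, ∀ v ∈ T, u + v ∉ T) ∧ (∀ u ∈ M, 2 * u ∈ S ∧ 2 * u ∉ M) ∧
      2 * S.card ≤ 3 * T.card + M.card := by
  classical
  induction m using Nat.strong_induction_on with
  | _ m ih =>
    intro S hm hS hpos
    by_cases hex : ∃ x ∈ S, ∃ u ∈ S, ∃ v ∈ S, u + v = x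
    · -- the least representable element
      have hne : (S.filter fun x => ∃ u ∈ S, ∃ v ∈ S, u + v = x).Nonempty := by
        obtain ⟨x, hx, h⟩ := hex
        exact ⟨x, mem_filter.2 ⟨hx, h⟩⟩
      set x := (S.filter fun x => ∃ u ∈ S, ∃ v ∈ S, u + v = x).min' hne with hxdef
      have hxm := (S.filter fun x => ∃ u ∈ S, ∃ v ∈ S, u + v = x).min'_mem hne
      rw [← hxdef] at hxm
      obtain ⟨hxS, u, hu, v, hv, huv⟩ := mem_filter.1 hxm
      have hmin : ∀ c ∈ S, ∀ a ∈ S, ∀ d ∈ S, a + d = c → x ≤ c := by
        intro c hc a ha d hd h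
        exact Finset.min'_le _ _ (mem_filter.2 ⟨hc, a, ha, d, hd, h⟩)
      have hu0 := hpos u hu
      have hv0 := hpos v hv
      by_cases huv' : u = v
      · subst huv'
        have hux : u ≠ x := by omega
        have hsub : ({x, u} : Finset ℕ) ⊆ S := by
          intro z hz
          rcases mem_insert.1 hz with h | h
          · rw [h]; exact hxS
          · rw [mem_singleton.1 h]; exact hu
        have hc2 : ({x, u} : Finset ℕ).card = 2 := card_pair (Ne.symm hux)
        have hcard : (S \ {x, u}).card = S.card - 2 := by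
          rw [card_sdiff_of_subset hsub, hc2]
        have hge : 2 ≤ S.card := by
          rw [← hc2]; exact card_le_card hsub
        obtain ⟨T, hT, M, hM, h1, h2, h3⟩ := ih (S \ {x, u}).card (by omega) (S \ {x, u}) rfl
          (hS.mono sdiff_subset) (fun z hz => hpos z (mem_sdiff.1 hz).1)
        have hTS : ∀ z ∈ T, z ∈ S ∧ z ≠ x ∧ z ≠ u := by
          intro z hz
          have := mem_sdiff.1 (hT hz)
          refine ⟨this.1, fun h => this.2 (by simp [h]), fun h => this.2 (by simp [h])⟩
        have hMS : ∀ z ∈ M, z ∈ S ∧ z ≠ x ∧ z ≠ u := by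
          intro z hz
          have := mem_sdiff.1 (hM hz)
          refine ⟨this.1, fun h => this.2 (by simp [h]), fun h => this.2 (by simp [h])⟩
        have huT : u ∉ T := fun h => (hTS u h).2.2 rfl
        have huM : u ∉ M := fun h => (hMS u h).2.2 rfl
        refine ⟨insert u T, ?_, insert u M, ?_, ?_, ?_, ?_⟩
        · intro z hz
          rcases mem_insert.1 hz with h | h
          · rw [h]; exact hu
          · exact (hTS z h).1
        · intro z hz
          rcases mem_insert.1 hz with h | h
          · rw [h]; exact hu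
          · exact (hMS z h).1
        · intro a ha d hd had
          have haS : a ∈ S := by
            rcases mem_insert.1 ha with h | h
            · rw [h]; exact hu
            · exact (hTS a h).1
          have hdS : d ∈ S := by
            rcases mem_insert.1 hd with h | h
            · rw [h]; exact hu
            · exact (hTS d h).1
          rcases mem_insert.1 had with h | h
          · have := hmin u hu a haS d hdS h
            omega
          · have hcS := (hTS _ h).1
            rcases mem_insert.1 ha with h' | h'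
            · subst h'
              have := summand_unique hS hpos hu hv hdS hxS hcS huv rfl
              exact (hTS _ h).2.1 this
            · rcases mem_insert.1 hd with h'' | h''
              · subst h''
                have := summand_unique hS hpos hu hv haS hxS hcS huv (add_comm _ _)
                exact (hTS _ h).2.1 this
              · exact h1 a h' d h'' h
        · intro w hw
          rcases mem_insert.1 hw with h | h
          · subst h
            refine ⟨by rw [two_mul, huv]; exact hxS, ?_⟩
            rw [two_mul, huv]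
            intro h'
            rcases mem_insert.1 h' with h'' | h''
            · exact hux h''.symm
            · exact (hMS _ h'').2.1 rfl
          · refine ⟨(mem_sdiff.1 (h2 w h).1).1, ?_⟩
            intro h'
            rcases mem_insert.1 h' with h'' | h''
            · have := hmin u hu w (hMS w h).1 w (hMS w h).1 (by omega)
              omega
            · exact (h2 w h).2 h''
        · rw [card_insert_of_notMem huT, card_insert_of_notMem huM]
          omega
      · have hux : u ≠ x := by omega
        have hvx : v ≠ x := by omega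
        have hsub : ({x, u, v} : Finset ℕ) ⊆ S := by
          intro z hz
          rcases mem_insert.1 hz with h | h
          · rw [h]; exact hxS
          · rcases mem_insert.1 h with h | h
            · rw [h]; exact hu
            · rw [mem_singleton.1 h]; exact hv
        have hc3 : ({x, u, v} : Finset ℕ).card = 3 :=
          card_eq_three.2 ⟨x, u, v, Ne.symm hux, Ne.symm hvx, huv', rfl⟩
        have hcard : (S \ {x, u, v}).card = S.card - 3 := by
          rw [card_sdiff_of_subset hsub, hc3]
        have hge : 3 ≤ S.card := by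
          rw [← hc3]; exact card_le_card hsub
        obtain ⟨T, hT, M, hM, h1, h2, h3⟩ := ih (S \ {x, u, v}).card (by omega) (S \ {x, u, v}) rfl
          (hS.mono sdiff_subset) (fun z hz => hpos z (mem_sdiff.1 hz).1)
        have hTS : ∀ z ∈ T, z ∈ S ∧ z ≠ x ∧ z ≠ u ∧ z ≠ v := by
          intro z hz
          have := mem_sdiff.1 (hT hz)
          refine ⟨this.1, fun h => this.2 (by simp [h]), fun h => this.2 (by simp [h]),
            fun h => this.2 (by simp [h])⟩
        have huT : u ∉ insert v T := by
          intro h
          rcases mem_insert.1 h with h' | h'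
          · exact huv' h'
          · exact (hTS u h').2.2.1 rfl
        have hvT : v ∉ T := fun h => (hTS v h).2.2.2 rfl
        have hIn : ∀ z ∈ insert u (insert v T), z ∈ S := by
          intro z hz
          rcases mem_insert.1 hz with h | h
          · rw [h]; exact hu
          · rcases mem_insert.1 h with h | h
            · rw [h]; exact hv
            · exact (hTS z h).1
        refine ⟨insert u (insert v T), hIn, M, hM.trans sdiff_subset, ?_, ?_, ?_⟩
        · intro a ha d hd had
          have haS := hIn a ha
          have hdS := hIn d hd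
          have hcS := hIn _ had
          rcases mem_insert.1 had with h | h
          · have := hmin u hu a haS d hdS h
            omega
          · rcases mem_insert.1 h with h | h
            · have := hmin v hv a haS d hdS h
              omega
            · have hcx := (hTS _ h).2.1
              have key : ∀ e f : ℕ, e ∈ insert u (insert v T) → f ∈ S → e + f ∈ S → e + f ≠ x →
                  e ∈ T := by
                intro e f he hf hef hne
                rcases mem_insert.1 he with h' | h'
                · subst h'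
                  exact absurd (summand_unique hS hpos hu hv hf hxS hef huv rfl) hne
                · rcases mem_insert.1 h' with h' | h'
                  · subst h'
                    exact absurd (summand_unique hS hpos hv hu hf hxS hef
                      (by rw [add_comm]; exact huv) rfl) hne
                  · exact h'
              have haT := key a d ha hdS hcS hcx
              have hdT := key d a hd haS (by rw [add_comm]; exact hcS) (by rw [add_comm]; exact hcx)
              exact h1 a haT d hdT h
        · intro w hw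
          exact ⟨(mem_sdiff.1 (h2 w hw).1).1, (h2 w hw).2⟩
        · rw [card_insert_of_notMem huT, card_insert_of_notMem hvT]
          omega
    · refine ⟨S, Subset.refl S, ∅, empty_subset S, ?_, ?_, ?_⟩
      · intro u hu v hv huv
        exact hex ⟨u + v, huv, u, hu, v, hv, rfl⟩
      · intro u hu
        exact absurd hu (notMem_empty u)
      · omega

theorem two_thirds (S : Finset ℕ) (hS : IsSidon S) (hpos : ∀ x ∈ S, 0 < x) :
    ∃ T ⊆ S, IsStronglySidon T ∧ 2 * S.card ≤ 3 * T.card + doublings S := by
  classical
  obtain ⟨T, hT, M, hM, h1, h2, h3⟩ := main_aux S.card S rfl hS hpos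
  refine ⟨T, hT, strong_of_sumfree T (hS.mono hT) h1, ?_⟩
  have h4 : M.card ≤ doublings S := by
    unfold doublings
    refine Finset.le_sup (f := Finset.card) ?_
    rw [mem_filter, mem_powerset]
    exact ⟨hM, h2⟩
  omega

theorem prod_factorial_dvd (m : Multiset ℕ) :
    (m.map Nat.factorial).prod ∣ m.sum.factorial := by
  induction m using Multiset.induction_on with
  | empty => simp
  | cons a m ih =>
    rw [Multiset.map_cons, Multiset.prod_cons, Multiset.sum_cons]
    exact (mul_dvd_mul_left _ ih).trans (Nat.factorial_mul_factorial_dvd_factorial_add a m.sum)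

theorem pos_of_mem {n x : ℕ} (hx : x ∈ multinomialValues n) : 0 < x := by
  rw [multinomialValues, mem_image] at hx
  obtain ⟨p, -, rfl⟩ := hx
  have h1 := prod_factorial_dvd p.parts
  rw [p.parts_sum] at h1
  exact Nat.div_pos (Nat.le_of_dvd (Nat.factorial_pos n) h1)
    (Nat.pos_of_ne_zero fun h0 => by
      rw [h0, zero_dvd_iff] at h1
      exact (Nat.factorial_ne_zero n) h1)

theorem values_bound (n : ℕ) (S : Finset ℕ) (hSn : S ⊆ multinomialValues n) (hS : IsSidon S) :
    2 * S.card ≤ 3 * b n + doublings S := by
  classical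
  obtain ⟨T, hTS, hT, hcard⟩ := two_thirds S hS fun x hx => pos_of_mem (hSn hx)
  have h1 : T.card ≤ b n := by
    unfold b
    refine Finset.le_sup (f := Finset.card) ?_
    rw [mem_filter, mem_powerset]
    exact ⟨hTS.trans hSn, hT⟩
  omega

/-! ### sharpness -/

/-- `S` has `3k + 2l` elements, doubling number at most `l` and no strongly Sidon subset with more
than `2k + l` elements. -/
def Ex (k l : ℕ) (S : Finset ℕ) : Prop :=
  IsSidon S ∧ (∀ x ∈ S, 0 < x) ∧ S.card = 3 * k + 2 * l ∧
    (∀ M ⊆ S, (∀ u ∈ M, 2 * u ∈ S ∧ 2 * u ∉ M) → M.card ≤ l) ∧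
    ∀ T ⊆ S, IsStronglySidon T → T.card ≤ 2 * k + l

/-- one more scaled block `A` of numbers below `100` -/
def ext (A S : Finset ℕ) : Finset ℕ := A ∪ S.image fun z => 100 * z

theorem mem_ext {A S : Finset ℕ} {x : ℕ} : x ∈ ext A S ↔ x ∈ A ∨ ∃ z ∈ S, x = 100 * z := by
  unfold ext
  rw [mem_union, mem_image]
  constructor
  · rintro (h | ⟨z, hz, rfl⟩)
    · exact Or.inl h
    · exact Or.inr ⟨z, hz, rfl⟩
  · rintro (h | ⟨z, hz, rfl⟩)
    · exact Or.inl h
    · exact Or.inr ⟨z, hz, rfl⟩

theorem card_ext {A S : Finset ℕ} (hA : ∀ x ∈ A, x < 100) (hS : ∀ x ∈ S, 0 < x) :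
    (ext A S).card = A.card + S.card := by
  unfold ext
  rw [card_union_of_disjoint, card_image_of_injective _ fun a b h => by
    have h' : 100 * a = 100 * b := h
    omega]
  rw [disjoint_left]
  intro x hx hx'
  obtain ⟨z, hz, rfl⟩ := mem_image.1 hx'
  have h1 := hA _ hx
  have h2 := hS z hz
  omega

/-- a subset of `ext A S` splits -/
theorem card_split {A S T : Finset ℕ} (hT : T ⊆ ext A S) :
    T.card ≤ (T.filter fun x => x ∈ A).card + (S.filter fun z => 100 * z ∈ T).card := by
  classical
  have h1 : T ⊆ (T.filter fun x => x ∈ A) ∪ (S.filter fun z => 100 * z ∈ T).image fun z => 100 * z := by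
    intro x hx
    rw [mem_union, mem_filter, mem_image]
    rcases mem_ext.1 (hT hx) with h | ⟨z, hz, rfl⟩
    · exact Or.inl ⟨hx, h⟩
    · exact Or.inr ⟨z, mem_filter.2 ⟨hz, hx⟩, rfl⟩
  calc T.card ≤ _ := card_le_card h1
    _ ≤ _ := card_union_le _ _
    _ ≤ _ := by
      have := card_image_le (s := S.filter fun z => 100 * z ∈ T) (f := fun z => 100 * z)
      omega

theorem strong_down {S T : Finset ℕ} (hT : IsStronglySidon T) :
    IsStronglySidon (S.filter fun z => 100 * z ∈ T) := by
  have hmem : ∀ x ∈ insert 0 (S.filter fun z => 100 * z ∈ T), 100 * x ∈ insert 0 T := by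
    intro x hx
    rcases mem_insert.1 hx with h | h
    · rw [h]; exact mem_insert_self _ _
    · exact mem_insert_of_mem (mem_filter.1 h).2
  intro x hx y hy u hu v hv he
  rcases hT _ (hmem x hx) _ (hmem y hy) _ (hmem u hu) _ (hmem v hv) (by omega) with h | h
  · left; omega
  · right; omega

theorem ext_step {A S : Finset ℕ} {k l a c : ℕ} (hA1 : ∀ x ∈ A, 0 < x ∧ x ≤ 4) (hA2 : IsSidon A)
    (hac : A.card = 3 * a + 2 * c)
    (hA3 : ∀ M ⊆ A, (∀ u ∈ M, 2 * u ∈ A ∧ 2 * u ∉ M) → M.card ≤ c)
    (hA4 : ∀ T ⊆ A, IsStronglySidon T → T.card ≤ 2 * a + c) (h : Ex k l S) :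
    Ex (k + a) (l + c) (ext A S) := by
  classical
  obtain ⟨h1, h2, h3, h4, h5⟩ := h
  have hA : ∀ x ∈ A, x < 100 := fun x hx => by have := hA1 x hx; omega
  refine ⟨?_, ?_, ?_, ?_, ?_⟩
  · intro x hx y hy u hu v hv he
    rcases mem_ext.1 hx with hx | ⟨x', hx', rfl⟩ <;> rcases mem_ext.1 hy with hy | ⟨y', hy', rfl⟩ <;>
      rcases mem_ext.1 hu with hu | ⟨u', hu', rfl⟩ <;> rcases mem_ext.1 hv with hv | ⟨v', hv', rfl⟩
    · exact hA2 x hx y hy u hu v hv he
    · have := hA1 x hx; have := hA1 y hy; have := hA1 u hu; have := h2 v' hv'; omega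
    · have := hA1 x hx; have := hA1 y hy; have := h2 u' hu'; have := hA1 v hv; omega
    · have := hA1 x hx; have := hA1 y hy; have := h2 u' hu'; have := h2 v' hv'; omega
    · have := hA1 x hx; have := h2 y' hy'; have := hA1 u hu; have := hA1 v hv; omega
    · have := hA1 x hx; have := h2 y' hy'; have := hA1 u hu; have := h2 v' hv'; omega
    · have := hA1 x hx; have := h2 y' hy'; have := h2 u' hu'; have := hA1 v hv; omega
    · have := hA1 x hx; have := h2 y' hy'; have := h2 u' hu'; have := h2 v' hv'; omega
    · have := h2 x' hx'; have := hA1 y hy; have := hA1 u hu; have := hA1 v hv; omega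
    · have := h2 x' hx'; have := hA1 y hy; have := hA1 u hu; have := h2 v' hv'; omega
    · have := h2 x' hx'; have := hA1 y hy; have := h2 u' hu'; have := hA1 v hv; omega
    · have := h2 x' hx'; have := hA1 y hy; have := h2 u' hu'; have := h2 v' hv'; omega
    · have := h2 x' hx'; have := h2 y' hy'; have := hA1 u hu; have := hA1 v hv; omega
    · have := h2 x' hx'; have := h2 y' hy'; have := hA1 u hu; have := h2 v' hv'; omega
    · have := h2 x' hx'; have := h2 y' hy'; have := h2 u' hu'; have := hA1 v hv; omega
    · rcases h1 x' hx' y' hy' u' hu' v' hv' (by omega) with h | h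
      · left; omega
      · right; omega
  · intro x hx
    rcases mem_ext.1 hx with hx | ⟨x', hx', rfl⟩
    · exact (hA1 x hx).1
    · have := h2 x' hx'; omega
  · rw [card_ext hA h2]
    omega
  · intro M hM hM2
    have h6 := card_split hM
    have h7 : (M.filter fun x => x ∈ A).card ≤ c := by
      refine hA3 _ (fun x hx => (mem_filter.1 hx).2) ?_
      intro u hu
      obtain ⟨huM, huA⟩ := mem_filter.1 hu
      obtain ⟨h8, h9⟩ := hM2 u huM
      refine ⟨?_, fun h => h9 (mem_filter.1 h).1⟩
      rcases mem_ext.1 h8 with h | ⟨z, hz, h⟩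
      · exact h
      · have := hA1 u huA; have := h2 z hz; omega
    have h8 : (S.filter fun z => 100 * z ∈ M).card ≤ l := by
      refine h4 _ (filter_subset _ _) ?_
      intro u hu
      obtain ⟨huS, huM⟩ := mem_filter.1 hu
      obtain ⟨h8, h9⟩ := hM2 _ huM
      constructor
      · rcases mem_ext.1 h8 with h | ⟨z, hz, h⟩
        · have := hA1 _ h; have := h2 u huS; omega
        · have : z = 2 * u := by omega
          rw [← this]; exact hz
      · intro h
        refine h9 ?_
        have := (mem_filter.1 h).2
        rw [show 2 * (100 * u) = 100 * (2 * u) by ring]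
        exact this
    omega
  · intro T hT hT2
    have h6 := card_split hT
    have h7 : (T.filter fun x => x ∈ A).card ≤ 2 * a + c := by
      refine hA4 _ (fun x hx => (mem_filter.1 hx).2) ?_
      refine IsSidon.mono hT2 ?_
      exact insert_subset_insert 0 (filter_subset _ _)
    have h8 : (S.filter fun z => 100 * z ∈ T).card ≤ 2 * k + l :=
      h5 _ (filter_subset _ _) (strong_down hT2)
    omega

theorem ex_zero : Ex 0 0 ∅ := by
  refine ⟨?_, ?_, ?_, ?_, ?_⟩
  · intro x hx; exact absurd hx (notMem_empty x)
  · intro x hx; exact absurd hx (notMem_empty x)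
  · rfl
  · intro M hM _
    rw [subset_empty.1 hM]; simp
  · intro T hT _
    rw [subset_empty.1 hT]; simp

theorem ex_triple {k l : ℕ} {S : Finset ℕ} (h : Ex k l S) : Ex (k + 1) l (ext {1, 3, 4} S) := by
  refine ext_step (a := 1) (c := 0) ?_ ?_ ?_ ?_ ?_ h
  · intro x hx
    simp only [mem_insert, mem_singleton] at hx
    omega
  · intro x hx y hy u hu v hv he
    simp only [mem_insert, mem_singleton] at hx hy hu hv
    omega
  · decide
  · intro M hM hM2
    rw [Nat.le_zero, card_eq_zero, eq_empty_iff_forall_notMem]
    intro u hu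
    have h1 := hM hu
    have h2 := (hM2 u hu).1
    simp only [mem_insert, mem_singleton] at h1 h2
    omega
  · intro T hT hT2
    by_contra hc
    have h1 : T = {1, 3, 4} := by
      refine eq_of_subset_of_card_le hT ?_
      have : ({1, 3, 4} : Finset ℕ).card = 3 := by decide
      omega
    have h2 := hT2 1 (by rw [h1]; decide) 3 (by rw [h1]; decide) 4 (by rw [h1]; decide) 0
      (mem_insert_self _ _) rfl
    omega

theorem ex_pair {k l : ℕ} {S : Finset ℕ} (h : Ex k l S) : Ex k (l + 1) (ext {1, 2} S) := by
  refine ext_step (a := 0) (c := 1) ?_ ?_ ?_ ?_ ?_ h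
  · intro x hx
    simp only [mem_insert, mem_singleton] at hx
    omega
  · intro x hx y hy u hu v hv he
    simp only [mem_insert, mem_singleton] at hx hy hu hv
    omega
  · decide
  · intro M hM hM2
    have h1 : M ⊆ {1} := by
      intro u hu
      have h1 := hM hu
      have h2 := (hM2 u hu).1
      simp only [mem_insert, mem_singleton] at h1 h2 ⊢
      omega
    have := card_le_card h1
    simpa using this
  · intro T hT hT2
    by_contra hc
    have h1 : T = {1, 2} := by
      refine eq_of_subset_of_card_le hT ?_
      have : ({1, 2} : Finset ℕ).card = 2 := by decide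
      omega
    have h2 := hT2 1 (by rw [h1]; decide) 1 (by rw [h1]; decide) 2 (by rw [h1]; decide) 0
      (mem_insert_self _ _) rfl
    omega

theorem exists_ex (k l : ℕ) : ∃ S, Ex k l S := by
  induction k with
  | zero =>
    induction l with
    | zero => exact ⟨∅, ex_zero⟩
    | succ l ih =>
      obtain ⟨S, hS⟩ := ih
      exact ⟨_, ex_pair hS⟩
  | succ k ih =>
    obtain ⟨S, hS⟩ := ih
    exact ⟨_, ex_triple hS⟩

theorem sharp (k l : ℕ) : ∃ S : Finset ℕ, IsSidon S ∧ (∀ x ∈ S, 0 < x) ∧
    S.card = 3 * k + 2 * l ∧ doublings S = l ∧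
    ∀ T ⊆ S, IsStronglySidon T → T.card ≤ 2 * k + l := by
  classical
  obtain ⟨S, h1, h2, h3, h4, h5⟩ := exists_ex k l
  refine ⟨S, h1, h2, h3, le_antisymm ?_ ?_, h5⟩
  · unfold doublings
    refine Finset.sup_le fun M hM => ?_
    rw [mem_filter, mem_powerset] at hM
    exact h4 M hM.1 hM.2
  · obtain ⟨T, hT, hT2, h6⟩ := two_thirds S h1 h2
    have := h5 T hT hT2
    omega

/-! ### the unconditional bound -/

theorem two_doublings_le (S : Finset ℕ) : 2 * doublings S ≤ S.card := by
  classical
  have key : ∀ M ⊆ S, (∀ u ∈ M, 2 * u ∈ S ∧ 2 * u ∉ M) → M.card ≤ S.card / 2 := by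
    intro M hM hM2
    have h1 : Disjoint M (M.image fun z => 2 * z) := by
      rw [disjoint_left]
      intro x hx hx'
      obtain ⟨z, hz, rfl⟩ := mem_image.1 hx'
      exact (hM2 z hz).2 hx
    have h2 : M ∪ (M.image fun z => 2 * z) ⊆ S := by
      refine union_subset hM ?_
      intro x hx
      obtain ⟨z, hz, rfl⟩ := mem_image.1 hx
      exact (hM2 z hz).1
    have h3 := card_le_card h2
    rw [card_union_of_disjoint h1, card_image_of_injective _ fun a b h => by
      have h' : 2 * a = 2 * b := h
      omega] at h3
    omega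
  have h1 : doublings S ≤ S.card / 2 := by
    unfold doublings
    refine Finset.sup_le fun M hM => ?_
    rw [mem_filter, mem_powerset] at hM
    exact key M hM.1 hM.2
  omega

theorem s_le (n : ℕ) : s n ≤ 2 * b n := by
  classical
  unfold s
  refine Finset.sup_le fun S hS => ?_
  rw [mem_filter, mem_powerset] at hS
  have h1 := values_bound n S hS.1 hS.2
  have h2 := two_doublings_le S
  omega

theorem s_pos (n : ℕ) : 0 < s n := by
  classical
  obtain ⟨x, hx⟩ : (multinomialValues n).Nonempty := by
    rw [multinomialValues, Finset.image_nonempty]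
    exact Finset.univ_nonempty
  have h2 : ({x} : Finset ℕ).card ≤ s n := by
    unfold s
    refine Finset.le_sup (f := Finset.card) ?_
    rw [mem_filter, mem_powerset]
    refine ⟨singleton_subset_iff.2 hx, ?_⟩
    intro a ha c hc u hu v hv _
    rw [mem_singleton] at ha hc hu hv
    subst ha hc hu hv
    exact Or.inl ⟨rfl, rfl⟩
  rw [card_singleton] at h2
  exact h2

theorem b_le (n : ℕ) : b n ≤ s n := by
  classical
  unfold b
  refine Finset.sup_le fun S hS => ?_
  rw [mem_filter, mem_powerset] at hS
  unfold s
  refine Finset.le_sup (f := Finset.card) ?_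
  rw [mem_filter, mem_powerset]
  refine ⟨hS.1, fun x hx y hy u hu v hv => ?_⟩
  exact hS.2 x (mem_insert_of_mem hx) y (mem_insert_of_mem hy) u (mem_insert_of_mem hu) v
    (mem_insert_of_mem hv)

theorem ratio (n : ℕ) : (1 / 2 : ℝ) ≤ (b n : ℝ) / s n := by
  have h1 : (0 : ℝ) < s n := by exact_mod_cast s_pos n
  rw [div_le_div_iff₀ (by norm_num) h1]
  have h2 : (s n : ℝ) ≤ 2 * b n := by exact_mod_cast s_le n
  linarith

theorem liminf_ratio : (1 / 2 : ℝ) ≤ liminf (fun n : ℕ => (b n : ℝ) / s n) atTop := by
  refine le_liminf_of_le ?_ (Eventually.of_forall ratio)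
  refine IsBoundedUnder.isCoboundedUnder_ge ?_
  refine ⟨1, ?_⟩
  rw [eventually_map]
  refine Eventually.of_forall fun n => ?_
  have h1 : (0 : ℝ) < s n := by exact_mod_cast s_pos n
  show (b n : ℝ) / s n ≤ 1
  rw [div_le_one h1]
  exact_mod_cast b_le n

/-- (1) `b(n) / s(n) ≥ 1/2` for every `n`, so the lower limit is at least `1/2`.  (2) Every Sidon
set `S` of positive integers has a strongly Sidon subset `T` with `2|S| ≤ 3|T| + D(S)`, where
`D(S)` is the largest number of disjoint pairs `{u, 2u}` in `S`.  (3) This is sharp for every size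
and every value of `D`.  (4) Hence `2|S| ≤ 3 b(n) + D(S)` for every Sidon subset `S` of the
multinomial values. -/
theorem result :
    (∀ n : ℕ, (1 / 2 : ℝ) ≤ (b n : ℝ) / s n) ∧
    (1 / 2 : ℝ) ≤ liminf (fun n : ℕ => (b n : ℝ) / s n) atTop ∧
    (∀ S : Finset ℕ, IsSidon S → (∀ x ∈ S, 0 < x) →
      ∃ T ⊆ S, IsStronglySidon T ∧ 2 * S.card ≤ 3 * T.card + doublings S) ∧
    (∀ k l : ℕ, ∃ S : Finset ℕ, IsSidon S ∧ (∀ x ∈ S, 0 < x) ∧ S.card = 3 * k + 2 * l ∧
      doublings S = l ∧ ∀ T ⊆ S, IsStronglySidon T → T.card ≤ 2 * k + l) ∧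
    (∀ n : ℕ, ∀ S ⊆ multinomialValues n, IsSidon S → 2 * S.card ≤ 3 * b n + doublings S) ∧
    (∀ n : ℕ, ∀ S ⊆ multinomialValues n, IsSidon S → S.card = s n →
      (2 / 3 : ℝ) - doublings S / (3 * s n) ≤ (b n : ℝ) / s n) := by
  refine ⟨ratio, liminf_ratio, two_thirds, sharp, values_bound, ?_⟩
  intro n S hSn hS hs
  have h2 : (0 : ℝ) < s n := by exact_mod_cast s_pos n
  have h3 : (2 : ℝ) * s n ≤ 3 * b n + doublings S := by
    have := values_bound n S hSn hS
    rw [hs] at this
    exact_mod_cast this
  have h4 : (2 / 3 : ℝ) - doublings S / (3 * s n) = (2 * s n - doublings S) / 3 / s n := by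
    field_simp
  rw [h4, div_le_div_iff_of_pos_right h2]
  linarith

end Pool.Agent.Results.MP_3cdea4_co.TwoThirds
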